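import Pool.Agent.N54.TQ.Sel
import Pool.Agent.N54.TQ.ToN
import Pool.Agent.N890.FD.Hyp

/-!
# Selmer sets of the members of thin sequences of curves and varieties with a map to CM elliptic curves

`A = E_1 × … × E_r`, `𝒯 ⊆ A × ℙᵐ` and the complete intersections `X_c = 𝒯 ∩ {F_1 = … = F_s = 0}`, where
`c ∈ ℤ^M` is the vector of all the coefficients of forms `F_j` of multidegree `(d_j; e_j)`, are as in
`SelmerSetsOfRandomCurves` (helper890): the `E_i` are elliptic curves over `ℚ` with complex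
multiplication, of arbitrary rank, with Tate-Shafarevich groups killed by some `M₀`, the fibres of
`𝒯 → A` modulo large primes `p` have at most `B p^κ` points, `1 ≤ κ ≤ s`, and the relative degrees
`e_1, …, e_κ` are at least `6 B` (at least `2` if `B ≤ 3/2`, for example if `𝒯 = A × ℙ^κ`).

There almost all `c` in a box are considered. Here all the coefficients are functions of ONE variable:
`c(n)_x = ⌊P_x(n)⌋` for every monomial `x`, where the `P_x` are generalised polynomials (finite sums of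
real powers of `n` with real coefficients) with distinct positive non-integral leading exponents and
positive leading coefficients, for example `c(n)_x = ⌊n ^ √(q_x)⌋` with different primes `q_x`. Only `N`
of the more than `N ^ (θ_1 + … + θ_M)` members of the box (`θ_x` the leading exponents) occur.

Theorem: there are `δ, η > 0` such that for every large `N` there is ONE level `L`, with
`log L ≤ (log N) ^ (1 - δ)`, such that for all but `N ^ (1 - η)` of the integers `n` between `N` and `2 N`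
(so also for almost all primes `n`) the `L`-Selmer set of `X_(c(n))` is empty: no `L`-covering of `A`
over `ℚ`, pulled back to `X_(c(n))`, has points over all the fields `ℚ_p`. In particular `X_(c(n))` has no
rational point, and finite descent explains this.

The proof combines the classes and the local conditions of helper890 with the second moment method
over all `k`-subsets of a set of primes for the sequence `c(n)`, which is well distributed modulo all
`q ≤ N ^ κ'` (helper666).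
-/

set_option autoImplicit false

namespace Pool.Agent.Results.MP_d37f77_nt.ThinRandomCurves

open MvPolynomial NumberField IsDedekindDomain Pool.Agent.TH954

open scoped LinearAlgebra.Projectivization

/-- the curve `y² = x³ + a x + b` -/
def curve {F : Type} [Field F] (a b : F) : WeierstrassCurve F := ⟨0, 0, 0, a, b⟩

/-- homogeneous coordinates of a point in the projective plane -/
def coords {F : Type} [Field F] {W : WeierstrassCurve F} : W.toAffine.Point → Fin 3 → F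
  | .zero => ![0, 1, 0]
  | .some x y _ => ![x, y, 1]

/-- `V` is a vector of homogeneous coordinates of a point of the curve `y² = x³ + a x + b`. -/
def OnCurve {k : Type} [Field k] (a b : ℤ) (V : Fin 3 → k) : Prop :=
  V ≠ 0 ∧ V 1 ^ 2 * V 2 = V 0 ^ 3 + a * V 0 * V 2 ^ 2 + b * V 2 ^ 3

/-- The value at `V, T` of a polynomial with integral coefficients in the coordinates `V i j`
(`i : Fin r`, `j : Fin 3`) of `r` plane cubics and in the coordinates `T x` (`x : Fin (m + 1)`) of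
`ℙᵐ`. -/
noncomputable def value {k : Type} [Field k] {r m : ℕ}
    (F : MvPolynomial ((Fin r × Fin 3) ⊕ Fin (m + 1)) ℤ) (V : Fin r → Fin 3 → k)
    (T : Fin (m + 1) → k) : k :=
  eval₂ (Int.castRingHom k) (Sum.elim (fun ij => V ij.1 ij.2) T) F

/-- `F` is homogeneous of degree `d i` in the coordinates of the `i`-th plane cubic and of degree `e`
in `T`. -/
def Multihomogeneous {r m : ℕ} (F : MvPolynomial ((Fin r × Fin 3) ⊕ Fin (m + 1)) ℤ)
    (d : Fin r → ℕ) (e : ℕ) : Prop :=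
  ∀ x ∈ F.support, (∀ i, ∑ j, x (Sum.inl (i, j)) = d i) ∧ ∑ s, x (Sum.inr s) = e

/-- The index type of the coefficients of `F_1, …, F_s`: a number `j`, the exponents of a monomial of
degree `e j` in `T_0, …, T_m`, and for each `i` the exponents of a monomial of degree `d j i` in the
three coordinates `V i`. -/
abbrev Coeffs {r s : ℕ} (m : ℕ) (d : Fin s → Fin r → ℕ) (e : Fin s → ℕ) : Type :=
  Σ j : Fin s, (↥(Finset.piAntidiag (Finset.univ : Finset (Fin (m + 1))) (e j)) ×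
    ((i : Fin r) → ↥(Finset.piAntidiag (Finset.univ : Finset (Fin 3)) (d j i))))

/-- The value of the form `F_j` with the coefficients `c`. -/
noncomputable def form {k : Type} [Field k] {r s m : ℕ} {d : Fin s → Fin r → ℕ}
    {e : Fin s → ℕ} (c : Coeffs m d e → k) (j : Fin s) (V : Fin r → Fin 3 → k)
    (T : Fin (m + 1) → k) : k :=
  ∑ x : ↥(Finset.piAntidiag (Finset.univ : Finset (Fin (m + 1))) (e j)) ×
      ((i : Fin r) → ↥(Finset.piAntidiag (Finset.univ : Finset (Fin 3)) (d j i))),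
    c ⟨j, x⟩ * ((∏ i, ∏ y, V i y ^ (x.2 i).1 y) * ∏ y, T y ^ x.1.1 y)

/-- The variety `X_c`, `Φ_l = 0`, `F_j = 0`, has a point over the extension `L` of `ℚ` whose components
in the elliptic curves are the points `P i`. -/
def IsOver {r s m q : ℕ} (a b : Fin r → ℤ)
    (Φ : Fin q → MvPolynomial ((Fin r × Fin 3) ⊕ Fin (m + 1)) ℤ)
    {d : Fin s → Fin r → ℕ} {e : Fin s → ℕ} (c : Coeffs m d e → ℤ) (L : Type) [Field L]
    [Algebra ℚ L] (P : ∀ i, ((curve (a i : ℚ) (b i : ℚ)).baseChange L).toAffine.Point) : Prop :=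
  ∃ T : Fin (m + 1) → L, T ≠ 0 ∧ (∀ l, value (Φ l) (fun i => coords (P i)) T = 0) ∧
    ∀ j, form (fun x => (c x : L)) j (fun i => coords (P i)) T = 0

open scoped Classical in
/-- The `N`-Selmer set of `X_c` (at the finite places), described by cocycles: the `N`-coverings of
`A = E_1 × … × E_r` whose pull-backs to `X_c` have points over all the completions of `ℚ` at finite
places: there are a point of `X_c` over `ℚ_v`, with components `P i`, and points `Q i` with
`N • Q i = P i` on which the Galois group of `ℚ_v` acts by translation by the cocycles `ξ i`. -/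
def Sel {r s m q : ℕ} (a b : Fin r → ℤ)
    (Φ : Fin q → MvPolynomial ((Fin r × Fin 3) ⊕ Fin (m + 1)) ℤ)
    {d : Fin s → Fin r → ℕ} {e : Fin s → ℕ} (c : Coeffs m d e → ℤ) (N : ℕ) :
    Set (∀ i : Fin r, (AlgebraicClosure ℚ ≃ₐ[ℚ] AlgebraicClosure ℚ) →
      AlgPt (curve (a i : ℚ) (b i : ℚ)) ℚ) :=
  {ξ | (∀ i, IsCocycle (curve (a i : ℚ) (b i : ℚ)) (ξ i)) ∧ (∀ i σ, N • ξ i σ = 0) ∧
    ∀ v : HeightOneSpectrum (𝓞 ℚ),
      ∃ (ι : AlgebraicClosure ℚ →ₐ[ℚ] AlgebraicClosure (v.adicCompletion ℚ))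
        (P : ∀ i, ((curve (a i : ℚ) (b i : ℚ)).baseChange (v.adicCompletion ℚ)).toAffine.Point)
        (Q : ∀ i, AlgPt (curve (a i : ℚ) (b i : ℚ)) (v.adicCompletion ℚ)),
        IsOver a b Φ c (v.adicCompletion ℚ) P ∧
        (∀ i, N • Q i = incl (curve (a i : ℚ) (b i : ℚ)) (v.adicCompletion ℚ) (P i)) ∧
        ∀ i σ τ, Compat ι σ τ → pm (curve (a i : ℚ) (b i : ℚ)) ι (ξ i τ) =
          act (curve (a i : ℚ) (b i : ℚ)) σ (Q i) - Q i}

/-- `X_c` has a rational point. -/
def HasPoint {r s m q : ℕ} (a b : Fin r → ℤ)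
    (Φ : Fin q → MvPolynomial ((Fin r × Fin 3) ⊕ Fin (m + 1)) ℤ)
    {d : Fin s → Fin r → ℕ} {e : Fin s → ℕ} (c : Coeffs m d e → ℤ) : Prop :=
  ∃ (P : ∀ i, (curve (a i : ℚ) (b i : ℚ)).toAffine.Point) (T : Fin (m + 1) → ℚ), T ≠ 0 ∧
    (∀ l, value (Φ l) (fun i => coords (P i)) T = 0) ∧
      ∀ j, form (fun x => (c x : ℚ)) j (fun i => coords (P i)) T = 0

/-- `∑ t ∈ F, u t * n ^ t` is a generalised polynomial with leading exponent `θ`, positive and not an
integer, and positive leading coefficient. -/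
def Admissible (F : Finset ℝ) (u : ℝ → ℝ) (θ : ℝ) : Prop :=
  θ ∈ F ∧ (∀ t ∈ F, t ≤ θ) ∧ 0 < θ ∧ (∀ k : ℕ, θ ≠ k) ∧ 0 < u θ

/-- The vector of the integral parts of the values at `n` of the generalised polynomials. -/
noncomputable def coeffs {ι : Type} (F : ι → Finset ℝ) (u : ι → ℝ → ℝ) (n : ℕ) (x : ι) : ℤ :=
  ⌊∑ t ∈ F x, u x t * (n : ℝ) ^ t⌋

/-- There are `δ, η > 0` such that for every large `N` there is a level `L`, `log L ≤ (log N) ^ (1 - δ)`,
such that for all but `N ^ (1 - η)` of the integers `n` between `N` and `2 N` the variety `X_c`, where `c`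
is the vector of the values at `n`, has no rational point and its `L`-Selmer set is empty. -/
def AlmostAllEmpty {r s m q : ℕ} (a b : Fin r → ℤ)
    (Φ : Fin q → MvPolynomial ((Fin r × Fin 3) ⊕ Fin (m + 1)) ℤ)
    (d : Fin s → Fin r → ℕ) (e : Fin s → ℕ) (F : Coeffs m d e → Finset ℝ)
    (u : Coeffs m d e → ℝ → ℝ) : Prop :=
  ∃ δ η : ℝ, 0 < δ ∧ 0 < η ∧ ∃ N₀ : ℕ, ∀ N : ℕ, N₀ ≤ N →
    ∃ L : ℕ, 1 ≤ L ∧ Real.log L ≤ Real.log N ^ (1 - δ) ∧
      (({n : ℕ | N < n ∧ n ≤ 2 * N ∧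
        ¬ (¬ HasPoint a b Φ (coeffs F u n) ∧ Sel a b Φ (coeffs F u n) L = ∅)}.ncard : ℕ) : ℝ) ≤
        (N : ℝ) ^ (1 - η)

/-- For all large primes `p` (with `p ≡ -1` modulo some `M`) the fibres of `𝒯 = {Φ_l = 0}` over the
points of `A` modulo `p` have at most `B p ^ κ` points. -/
def FewPoints {r m q : ℕ} (a b : Fin r → ℤ)
    (Φ : Fin q → MvPolynomial ((Fin r × Fin 3) ⊕ Fin (m + 1)) ℤ) (κ : ℕ) (B : ℝ) : Prop :=
  ∃ M p₁ : ℕ, 0 < M ∧ ∀ (p : ℕ) [Fact p.Prime], p₁ ≤ p → M ∣ p + 1 →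
    ∀ V : Fin r → Fin 3 → ZMod p, (∀ i, OnCurve (a i) (b i) (V i)) →
      (({P : ℙ (ZMod p) (Fin (m + 1) → ZMod p) | ∀ l, value (Φ l) V P.rep = 0}.ncard : ℕ) : ℝ) ≤
        B * (p : ℝ) ^ κ

/-- `y² = x³ + a x + b` is an elliptic curve over `ℚ` which has `p` affine points modulo `p` (is
supersingular) for the primes `p ≡ -1` modulo some `M` which do not divide some `D`. This holds for
the elliptic curves over `ℚ` with complex multiplication, and only for them. -/
def Supersingular (a b : ℤ) : Prop :=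
  4 * a ^ 3 + 27 * b ^ 2 ≠ 0 ∧ ∃ M D : ℕ, 0 < M ∧ 0 < D ∧ ∀ p : ℕ, p.Prime → ¬ p ∣ D → M ∣ p + 1 →
    Nat.card {z : ZMod p × ZMod p // z.2 ^ 2 = z.1 ^ 3 + a * z.1 + b} = p

theorem supersingular_of (a b : ℤ) (h : a * b = 0) (h0 : a ≠ 0 ∨ b ≠ 0) : Supersingular a b := by
  refine ⟨?_, 12, 1, by norm_num, one_pos, fun p hp _ h12 =>
    Pool.Agent.H35R6.DCCNT.cnt p a b hp h12 h⟩
  exact Pool.Agent.N89.CI.disc_ne (r := 1) (a := fun _ => a) (b := fun _ => b)
    (fun _ => ⟨h, h0⟩) 0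

theorem general (r : ℕ) (a b : Fin r → ℤ) (hE : ∀ i, Supersingular (a i) (b i))
    (M₀ : ℕ) (hM₀ : 1 ≤ M₀) (hSha : ∀ i, ShaKilledBy (curve (a i : ℚ) (b i : ℚ)) M₀)
    (κ s : ℕ) (hκ : 1 ≤ κ) (hs : κ ≤ s) (d : Fin s → Fin r → ℕ) (e : Fin s → ℕ)
    (m q : ℕ) (Φ : Fin q → MvPolynomial ((Fin r × Fin 3) ⊕ Fin (m + 1)) ℤ)
    (d' : Fin q → Fin r → ℕ) (e' : Fin q → ℕ) (hΦ : ∀ l, Multihomogeneous (Φ l) (d' l) (e' l))
    (B : ℝ) (hpts : FewPoints a b Φ κ B)
    (he : B ≤ 3 / 2 ∧ (∀ j : Fin s, j.1 < κ → 2 ≤ e j) ∨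
      ∀ j : Fin s, j.1 < κ → 6 * B ≤ e j) (F : Coeffs m d e → Finset ℝ)
    (u : Coeffs m d e → ℝ → ℝ) (θ : Coeffs m d e → ℝ) (hF : ∀ x, Admissible (F x) (u x) (θ x))
    (hθ : Function.Injective θ) : AlmostAllEmpty a b Φ d e F u := by
  classical
  obtain ⟨M, p₁, hM, hpts⟩ := hpts
  choose hdisc M₁ D₁ hM₁ hD₁ hss using hE
  have hne : Nonempty (Coeffs m d e) := Pool.Agent.N89.CI.nonempty_idx m d e (hκ.trans hs)
  obtain ⟨⟨κ', hκ', hw⟩, -⟩ := Pool.Agent.N666.TM.fl_well (F := F) (a := u) (c := θ) hF hθ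
  obtain ⟨δ, hδ, hδ1, H₀, hH₀, hH⟩ := Pool.Agent.N54.TQ.ciSelW r m κ s hκ hs a b hdisc (∏ i, M₁ i)
    (∏ i, D₁ i) (Finset.prod_pos fun i _ => hM₁ i) (Finset.prod_pos fun i _ => hD₁ i)
    (fun i p hp hpD hpM => hss i p hp
      (fun h => hpD (h.trans (Finset.dvd_prod_of_mem _ (Finset.mem_univ i))))
      ((Finset.dvd_prod_of_mem _ (Finset.mem_univ i)).trans hpM)) M₀ hM₀ hSha Φ d' e'
    hΦ B M p₁ hM hpts d e he (1 / 10) (by norm_num)
  have key := Pool.Agent.N54.TQ.toN (x := coeffs F u) hκ' hw (τ := 1 / 10) (by norm_num) (H₀ := H₀)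
    (Q := fun H L => 1 ≤ L ∧ Real.log L ≤ Real.log H ^ (1 - δ))
    (Bad := fun L c => ¬ (¬ HasPoint a b Φ c ∧ Sel a b Φ c L = ∅)) (by
      intro H hH'
      obtain ⟨N, hN, hlog, hcard⟩ := hH H hH'
      refine ⟨N, ⟨hN, hlog⟩, fun S x hw => ?_⟩
      have h0 := hcard S x hw
      rw [show -(1 / 5 : ℝ) + 1 / 10 = -(1 / 10) by norm_num] at h0
      refine le_trans (Nat.cast_le.2 (Set.ncard_le_ncard ?_
        (S.finite_toSet.subset fun k hk => hk.1))) h0
      rintro k ⟨hk, h⟩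
      refine ⟨hk, ?_⟩
      have h1 : HasPoint a b Φ (x k) ∨ (Sel a b Φ (x k) N).Nonempty := by
        by_contra hcon
        push Not at hcon
        exact h ⟨hcon.1, hcon.2⟩
      rcases h1 with ⟨P, T, hT, h1, h2⟩ | ⟨ξ, h1, h2, h3⟩
      · left
        refine ⟨P, T, hT, fun l => ?_⟩
        rcases l with l | j
        · simp only [Sum.elim_inl]
          rw [Pool.Agent.N89.CI.valP_lift0]
          exact h1 l
        · simp only [Sum.elim_inr]
          rw [Pool.Agent.N89.CI.valP_gen]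
          exact h2 j
      · right
        refine ⟨ξ, h1, h2, fun v => ?_⟩
        obtain ⟨ι, P, Q, ⟨T, hT, h4, h5⟩, h6, h7⟩ := h3 v
        refine ⟨ι, P, Q, ⟨T, hT, fun l => ?_⟩, h6, h7⟩
        have hc1 : (algebraMap ℚ (v.adicCompletion ℚ)).comp (Int.castRingHom ℚ) =
            Int.castRingHom (v.adicCompletion ℚ) := RingHom.ext_int _ _
        have hc2 : (fun y => algebraMap ℚ (v.adicCompletion ℚ) ((x k y : ℤ) : ℚ)) =
            fun y => ((x k y : ℤ) : v.adicCompletion ℚ) := by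
          funext y
          exact map_intCast _ _
        rw [hc1, hc2]
        rcases l with l | j
        · simp only [Sum.elim_inl]
          rw [Pool.Agent.N89.CI.valP_lift0]
          exact h4 l
        · simp only [Sum.elim_inr]
          rw [Pool.Agent.N89.CI.valP_gen]
          exact h5 j)
  obtain ⟨N₀, hN₀⟩ := key
  refine ⟨δ, min κ' 1 / 2 * (1 / 10), hδ, by positivity, N₀, fun N hN => ?_⟩
  obtain ⟨H, hH3, hHN, L, ⟨hL1, hL2⟩, hcard⟩ := hN₀ N hN
  refine ⟨L, hL1, hL2.trans ?_, hcard⟩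
  have hH3R : (3 : ℝ) ≤ H := by exact_mod_cast hH3
  have hHNR : (H : ℝ) ≤ N := by exact_mod_cast hHN
  exact Real.rpow_le_rpow (Real.log_nonneg (by linarith)) (Real.log_le_log (by linarith) hHNR)
    (by linarith)

/-- **Almost all members of a thin sequence of complete intersections (random curves) in families over
`A` have empty Selmer sets of one small level.** -/
theorem result (r : ℕ) (a b : Fin r → ℤ) (hE : ∀ i, Supersingular (a i) (b i))
    (M₀ : ℕ) (hM₀ : 1 ≤ M₀) (hSha : ∀ i, ShaKilledBy (curve (a i : ℚ) (b i : ℚ)) M₀)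
    (κ s : ℕ) (hκ : 1 ≤ κ) (hs : κ ≤ s) (d : Fin s → Fin r → ℕ) (e : Fin s → ℕ) :
    -- (0) the curves `y² = x³ + a x` and `y² = x³ + b`
    (∀ a b : ℤ, a * b = 0 → (a ≠ 0 ∨ b ≠ 0) → Supersingular a b) ∧
    -- the general family
    (∀ (m q : ℕ) (Φ : Fin q → MvPolynomial ((Fin r × Fin 3) ⊕ Fin (m + 1)) ℤ)
      (d' : Fin q → Fin r → ℕ) (e' : Fin q → ℕ), (∀ l, Multihomogeneous (Φ l) (d' l) (e' l)) →
      ∀ B : ℝ, FewPoints a b Φ κ B →
      (B ≤ 3 / 2 ∧ (∀ j : Fin s, j.1 < κ → 2 ≤ e j) ∨ ∀ j : Fin s, j.1 < κ → 6 * B ≤ e j) →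
      ∀ (F : Coeffs m d e → Finset ℝ) (u : Coeffs m d e → ℝ → ℝ) (θ : Coeffs m d e → ℝ),
        (∀ x, Admissible (F x) (u x) (θ x)) → Function.Injective θ →
        AlmostAllEmpty a b Φ d e F u) ∧
    -- `𝒯 = A × ℙ^κ`
    ((∀ j : Fin s, j.1 < κ → 2 ≤ e j) →
      ∀ (F : Coeffs κ d e → Finset ℝ) (u : Coeffs κ d e → ℝ → ℝ) (θ : Coeffs κ d e → ℝ),
        (∀ x, Admissible (F x) (u x) (θ x)) → Function.Injective θ →
        AlmostAllEmpty (m := κ) a b (fun l : Fin 0 => l.elim0) d e F u) ∧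
    -- `𝒯 = A × Y` for a hypersurface `Y : f = 0` of degree `g` in `ℙ^(κ+1)`
    (∀ (g : ℕ) (f : MvPolynomial (Fin (κ + 2)) ℤ), f.IsHomogeneous g → f ≠ 0 →
      (∀ j : Fin s, j.1 < κ → 12 * g ≤ e j) →
      ∀ (F : Coeffs (κ + 1) d e → Finset ℝ) (u : Coeffs (κ + 1) d e → ℝ → ℝ)
        (θ : Coeffs (κ + 1) d e → ℝ),
        (∀ x, Admissible (F x) (u x) (θ x)) → Function.Injective θ →
        AlmostAllEmpty (m := κ + 1) a b (fun _ : Fin 1 => rename Sum.inr f) d e F u) := by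
  refine ⟨supersingular_of, ?_, ?_, ?_⟩
  · intro m q Φ d' e' hΦ B hB he F u θ hF hθ
    exact general r a b hE M₀ hM₀ hSha κ s hκ hs d e m q Φ d' e' hΦ B hB he F u θ hF hθ
  · intro he F u θ hF hθ
    refine general r a b hE M₀ hM₀ hSha κ s hκ hs d e κ 0 _ (fun l => l.elim0)
      (fun l => l.elim0) (fun l => l.elim0) (3 / 2) ⟨1, 3, one_pos, ?_⟩ (Or.inl ⟨le_rfl, he⟩)
      F u θ hF hθ
    intro p hp hp3 _ V hV
    have h1 : {P : ℙ (ZMod p) (Fin (κ + 1) → ZMod p) |
        ∀ l : Fin 0, value (r := r) (l.elim0 : MvPolynomial ((Fin r × Fin 3) ⊕ Fin (κ + 1)) ℤ) V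
          P.rep = 0} = Set.univ :=
      Set.eq_univ_of_forall fun P l => l.elim0
    rw [h1, Set.ncard_univ]
    have h2 := Pool.Agent.N89.CI.density_fun (k := ZMod p) (m := κ) (κ := κ)
      (by rw [Nat.card_zmod]; exact hp3) rfl
    rwa [Nat.card_zmod] at h2
  · intro g f hf hf0 he F u θ hF hθ
    obtain ⟨p₁, hp₁⟩ := Pool.Agent.N890.FD.hyp_count κ g f hf hf0
    refine general r a b hE M₀ hM₀ hSha κ s hκ hs d e (κ + 1) 1 _ (fun _ _ => 0)
      (fun _ => g) (fun _ => ?_) (2 * g) ⟨1, p₁, one_pos, ?_⟩ (Or.inr fun j hj => ?_) F u θ hF hθ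
    · intro x hx
      classical
      obtain ⟨y, hy1, hy2⟩ := coeff_rename_ne_zero _ _ _ (mem_support_iff.1 hx)
      subst hy1
      refine ⟨fun i => Finset.sum_eq_zero fun j _ => ?_, ?_⟩
      · rw [Finsupp.mapDomain_of_notMem_range]
        simp
      · have h1 := hf hy2
        rw [Finsupp.weight_apply, Finsupp.sum_fintype _ _ (fun _ => by simp)] at h1
        rw [← h1]
        refine Finset.sum_congr rfl fun i _ => ?_
        rw [Finsupp.mapDomain_apply Sum.inr_injective]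
        simp
    · intro p hp hp1 _ V hV
      refine le_trans (le_of_eq ?_) (hp₁ p hp1)
      congr 2
      ext P
      simp only [Set.mem_ofPred_eq]
      unfold value
      rw [eval₂_rename]
      simp only [Sum.elim_comp_inr]
      exact ⟨fun h => h 0, fun h _ => h⟩
    · have h1 := he j hj
      have h2 : ((12 * g : ℕ) : ℝ) ≤ e j := by exact_mod_cast h1
      push_cast at h2
      linarith

end Pool.Agent.Results.MP_d37f77_nt.ThinRandomCurves
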