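import Pool.Agent.N546.ZT.FD
import Pool.Agent.Results.MP_d37f77_nt.TwistedCyclicCoverings

/-!
# Finite descent on twists of cyclic coverings in thin sequences: one null set for all coverings

Let `D : b y ^ n = ∏ k, G k (z, w)` be a curve over `ℚ`, where the `G k` are the homogenisations of
polynomials `g k` with integral coefficients, of degrees divisible by `n`, pairwise coprime, and let
`h` be a polynomial with integral coefficients, coprime to the `g k`, and `H` its homogenisation. For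
a nonzero integer `a` and `m ≥ 2`, `m ∣ deg h`, consider the curve

  `C a : b y ^ n = ∏ k, G k (z, w)`, `a x ^ m = H (z, w)`,

a cyclic covering of degree `m` of `D`; for different `a` these coverings are twists of each other. It
has the coverings `D δ : G k (z, w) = δ k * y k ^ n` (all `k`), `a x ^ m = H (z, w)`, `∏ δ k = b t ^ n`. The
starting file `TwistedCyclicCoverings` shows for almost all squarefree `a` that the `D δ` with points
over all `ℚ_p` are persistent, and that they satisfy the Hasse principle if `n = 2` and the zeros of `h`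
are one or two integers.

Let `z_0, z_1, z_2, …` be sequences of integers such that all finite subfamilies are uniformly
distributed modulo all `q`, along the sets `S₁ N ⊆ (N, 2 N]` and `S₂ N ⊆ (N, 2 N]`, `N → ∞`. For example
`S₁ N` and `S₂ N` can be the sets of all integers and of all primes of `(N, 2 N]` and `z_l(t) = ⌊P_l(t)⌋`,
where the `P_l(t) = ∑ a_x t ^ x` are generalised polynomials (finitely many real exponents, real
coefficients) with distinct leading exponents which are positive and not integers and have positive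
coefficients, such as `P_l(t) = t ^ (2 l + √2)`.

**Theorem.** (1) For all data `n`, `b`, `g`, `h` there are finitely many sets of primes with divergent sums of
reciprocals such that this is true for ALL integers `a`, squarefree or not, with an exact prime
divisor in each of these sets; if there are no persistent classes, `C a` has no rational points.

(2) There is ONE set `E` of integers of density zero relative to the sets `S₁ N` and to the sets `S₂ N`,
such that this is true for ALL data `n`, `b`, `g`, `h` and all products `a = u ∏ z_l(t) ^ e_l` (`u ≠ 0`,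
some `e_l = 1`) for all but finitely many integers `t` outside `E`. The set `E` depends on the
`z_l` only.

Proof. The starting file considers almost all squarefree `a`. Its local analysis works at the exact
prime divisors of an arbitrary integer `a`: the property needs one exact prime divisor in each of
finitely many sets of primes of positive density (theorem of Chebotarev), which depend on `g`, `h`, `b` only.
By the uniform distribution of `z_0(t), …, z_k(t)` Turan's sieve gives exact prime divisors of each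
`z_l(t)` in each of these sets, not dividing the others, for almost all `t`, and a diagonal argument gives
one set `E` for the countably many data and all exponents. The integer parts of generalised
polynomials are uniformly distributed by estimates of exponential sums (engine of helper666).
-/

set_option autoImplicit false

namespace Pool.Agent.Results.MP_d37f77_nt.ThinSequencesOfCoverings

open Polynomial Pool.Agent.R925.FD
open Pool.Agent.Results.MP_d37f77_nt.TwistedCyclicCoverings (Admissible LocallySoluble)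

/-- All finite subfamilies of the sequences `z 0, z 1, …` of integers are uniformly distributed modulo all
`q`, along the sets `S N`. -/
def UD (S : ℕ → Finset ℕ) (z : ℕ → ℕ → ℤ) : Prop :=
  ∀ (r : ℕ) (σ : Fin r → ℕ), Function.Injective σ → ∀ q : ℕ, 1 ≤ q → ∀ ρ : Fin r → ℤ,
    Filter.Tendsto (fun N => ({t : ℕ | t ∈ S N ∧ ∀ i, (q : ℤ) ∣ z (σ i) t - ρ i}.ncard : ℝ) / (S N).card)
      Filter.atTop (nhds (1 / (q : ℝ) ^ r))

/-- `c` is the largest exponent of the generalised polynomial `∑ a_x t ^ x`; it is positive and not an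
integer and has a positive coefficient. -/
def Leading (F : Finset ℝ) (a : ℝ → ℝ) (c : ℝ) : Prop :=
  c ∈ F ∧ (∀ x ∈ F, x ≤ c) ∧ 0 < c ∧ (∀ m : ℕ, c ≠ m) ∧ 0 < a c

/-- The integer parts of the values of the generalised polynomials `P_l(t) = ∑ a_x t ^ x`. -/
noncomputable def floors (F : ℕ → Finset ℝ) (a : ℕ → ℝ → ℝ) (l t : ℕ) : ℤ :=
  ⌊∑ x ∈ F l, a l x * (t : ℝ) ^ x⌋

/-- The integer `u ∏ z_l(t) ^ e_l`, `l ∈ s`. -/
def twist (z : ℕ → ℕ → ℤ) (s : Finset ℕ) (e : ℕ → ℕ) (u : ℤ) (t : ℕ) : ℤ :=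
  u * ∏ l ∈ s, z l t ^ e l

/-- `E` has density zero relative to the sets `S N`. -/
def NullIn (S : ℕ → Finset ℕ) (E : Set ℕ) : Prop :=
  ∀ ε : ℝ, 0 < ε → ∃ N₀ : ℕ, ∀ N : ℕ, N₀ ≤ N →
    ({t : ℕ | t ∈ S N ∧ t ∈ E}.ncard : ℝ) ≤ ε * (S N).card

/-- The property `P` is satisfied for all integers `a` which have an exact prime divisor in each of
finitely many sets of primes with divergent sums of reciprocals. -/
def LocalCriterion (P : ℤ → Prop) : Prop :=
  ∃ (r : ℕ) (Q : Fin r → Set ℕ), (∀ i, ∀ p ∈ Q i, p.Prime) ∧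
    (∀ i, ∀ B : ℝ, ∃ y : ℕ, B ≤ ∑ p ∈ Finset.range y,
      Set.indicator (Q i) (fun p : ℕ => 1 / (p : ℝ)) p) ∧
    ∀ a : ℤ, (∀ i, ∃ p ∈ Q i, (p : ℤ) ∣ a ∧ ¬ (p : ℤ) ^ 2 ∣ a) → P a

/-- For all products `a = u ∏ z_l(t) ^ e_l` with `u ≠ 0` and some `e_l = 1` the property `P a` holds for
all but finitely many integers `t` outside `E`. -/
def ForTwists (z : ℕ → ℕ → ℤ) (E : Set ℕ) (P : ℤ → Prop) : Prop :=
  ∀ (s : Finset ℕ) (e : ℕ → ℕ) (u : ℤ), u ≠ 0 → (∃ l ∈ s, e l = 1) →
    {t : ℕ | t ∉ E ∧ ¬ P (twist z s e u t)}.Finite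

/-- The coverings of the curves `C a` which have points over all the fields `ℚ_p` are persistent. -/
def OnlyPersistent {K : Type} [Fintype K] (n : ℕ) (b : ℤ) (g : K → ℤ[X]) (h : ℤ[X]) (a : ℤ) : Prop :=
  ∀ m, 2 ≤ m → m ∣ h.natDegree → ∀ δ : K → ℚ, IsClass n b δ → LocallySoluble n m a g h δ →
    Persistent n g h δ

/-- The coverings of the curves `C a` have no local points at some prime, and the curves have no
rational points. -/
def EmptySelmer {K : Type} [Fintype K] (n : ℕ) (b : ℤ) (g : K → ℤ[X]) (h : ℤ[X]) (a : ℤ) : Prop :=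
  ∀ m, 2 ≤ m → m ∣ h.natDegree → (∀ δ : K → ℚ, IsClass n b δ → ¬ LocallySoluble n m a g h δ) ∧
    ¬ CurveHasPoint n m b a g h ℚ

/-- The coverings of the curves `C a` which have points over all the fields `ℚ_p` have rational points. -/
def HassePrinciple {K : Type} [Fintype K] (b : ℤ) (g : K → ℤ[X]) (h : ℤ[X]) (a : ℤ) : Prop :=
  ∀ m, 2 ≤ m → m ∣ h.natDegree → ∀ δ : K → ℚ, IsClass 2 b δ → LocallySoluble 2 m a g h δ →
    CoveringHasPoint 2 m a g h δ ℚ

lemma LocalCriterion.mono {P P' : ℤ → Prop} (h : LocalCriterion P) (h' : ∀ a, P a → P' a) :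
    LocalCriterion P' := by
  obtain ⟨r, Q, h1, h2, h3⟩ := h
  exact ⟨r, Q, h1, h2, fun a ha => h' a (h3 a ha)⟩

lemma ForTwists.mono {z : ℕ → ℕ → ℤ} {E : Set ℕ} {P P' : ℤ → Prop}
    (h : ForTwists z E P) (h' : ∀ a, P a → P' a) : ForTwists z E P' := fun s e u hu hs =>
  (h s e u hu hs).subset fun _ ⟨h1, h2⟩ => ⟨h1, fun h3 => h2 (h' _ h3)⟩

section
variable {K : Type} [Fintype K] {n : ℕ} {b : ℤ} {g : K → ℤ[X]} {h : ℤ[X]} {a : ℤ}

lemma only_of (hp : Pool.Agent.N546.ZT.FDProp n b g h a) : OnlyPersistent n b g h a :=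
  fun m hm hmh δ h1 h2 => hp m hm hmh δ h1 h2

/-- A rational point of a covering is a point over `ℚ_p`. -/
lemma local_of_rational {m : ℕ} {δ : K → ℚ} (hC : CoveringHasPoint n m a g h δ ℚ) :
    LocallySoluble n m a g h δ := by
  intro p hp
  obtain ⟨z, w, x, hzw, hx, hy⟩ := hC
  refine ⟨(z : ℚ_[p]), (w : ℚ_[p]), (x : ℚ_[p]), ?_, ?_, fun k => ?_⟩
  · rcases hzw with h1 | h1
    · exact Or.inl (Rat.cast_ne_zero.2 h1)
    · exact Or.inr (Rat.cast_ne_zero.2 h1)
  · have h2 := congrArg (fun q : ℚ => (q : ℚ_[p])) hx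
    simp only [Rat.cast_mul, Rat.cast_pow, Rat.cast_intCast] at h2
    rw [h2]
    exact (hom_map h (Rat.castHom ℚ_[p]) z w)
  · obtain ⟨y, hyk⟩ := hy k
    refine ⟨(y : ℚ_[p]), ?_⟩
    have h2 := congrArg (fun q : ℚ => (q : ℚ_[p])) hyk
    simp only [Rat.cast_mul, Rat.cast_pow, Rat.cast_id] at h2
    rw [← h2]
    exact (hom_map (g k) (Rat.castHom ℚ_[p]) z w).symm

lemma empty_of (hA : Admissible n b g h)
    (hno : ∀ δ : K → ℚ, IsClass n b δ → ¬ Persistent n g h δ)
    (hp : Pool.Agent.N546.ZT.FDProp n b g h a) : EmptySelmer n b g h a := by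
  classical
  intro m hm hmh
  refine ⟨fun δ h1 h2 => hno δ h1 (hp m hm hmh δ h1 h2), fun hC => ?_⟩
  obtain ⟨δ, h1, h2⟩ := exists_class n m hA.n_pos b a hA.b_ne g h hA.g_ne hA.coprime hC
  exact hno δ h1 (hp m hm hmh δ h1 (local_of_rational h2))

lemma hasse_of {α₁ α₂ : ℤ} (hA : Admissible 2 b g h)
    (hz : ∀ β : AlgebraicClosure ℚ, aeval β h = 0 ↔ β = α₁ ∨ β = α₂)
    (hp : Pool.Agent.N546.ZT.FDProp 2 b g h a) : HassePrinciple b g h a := by
  intro m hm hmh δ h3 h4
  have hper := hp m hm hmh δ h3 h4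
  -- the zeros of `h`
  have hzero : ∀ α : ℤ, aeval (α : AlgebraicClosure ℚ) h = 0 → h.eval α = 0 := by
    intro α hα
    have h6 := aeval_algebraMap_apply_eq_algebraMap_eval (A := AlgebraicClosure ℚ) α h
    rw [eq_intCast, eq_intCast, hα] at h6
    exact_mod_cast h6.symm
  have hpt : ∀ (f : ℤ[X]) (α : ℤ), hom f (α : ℚ) 1 = ((f.eval α : ℤ) : ℚ) := by
    intro f α
    rw [hom_one]
    have h6 := eval₂_at_apply (p := f) (Int.castRingHom ℚ) α
    rw [eq_intCast, eq_intCast] at h6
    exact h6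
  have hg : ∀ (k : K) (α : ℤ), h.eval α = 0 → (g k).eval α ≠ 0 := by
    intro k α hα hgα
    refine coprime_field hA.h_ne (hA.coprime_h k) (F := ℚ) (z := (α : ℚ)) (w := 1)
      (Or.inr one_ne_zero) ?_ ?_
    · rw [hpt, hα, Int.cast_zero]
    · rw [hpt, hgα, Int.cast_zero]
  have hα₁ := hzero α₁ ((hz α₁).2 (Or.inl rfl))
  have hα₂ := hzero α₂ ((hz α₂).2 (Or.inr rfl))
  have key : ∀ α : ℤ, h.eval α = 0 → (∀ k, IsSquare (δ k * ((g k).eval α : ℤ))) →
      CoveringHasPoint 2 m a g h δ ℚ := by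
    intro α hα hsq
    refine ⟨α, 1, 0, Or.inr one_ne_zero, ?_, fun k => ?_⟩
    · rw [hpt, hα, zero_pow (by omega : m ≠ 0), mul_zero, Int.cast_zero]
    · obtain ⟨r, hr⟩ := hsq k
      have h7 := h3.1 k
      refine ⟨r / δ k, ?_⟩
      rw [hpt, Rat.cast_id, div_pow, sq r, ← hr]
      field_simp
  rcases persistent_two g h α₁ α₂ (fun β hβ => (hz β).1 hβ) (fun k => hg k α₁ hα₁)
    (fun k => hg k α₂ hα₂) δ h3.1 hper with h6 | h6
  · exact key α₁ hα₁ h6
  · exact key α₂ hα₂ h6

end

theorem result :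
    (∀ (K : Type) [Fintype K] (n : ℕ) (b : ℤ) (g : K → ℤ[X]) (h : ℤ[X]), Admissible n b g h →
      LocalCriterion (OnlyPersistent n b g h) ∧
      ((∀ δ : K → ℚ, IsClass n b δ → ¬ Persistent n g h δ) →
        LocalCriterion (EmptySelmer n b g h)) ∧
      (n = 2 → ∀ α₁ α₂ : ℤ, (∀ β : AlgebraicClosure ℚ, aeval β h = 0 ↔ β = α₁ ∨ β = α₂) →
        LocalCriterion (HassePrinciple b g h))) ∧
    (∀ S₁ S₂ : ℕ → Finset ℕ, (∀ N, S₁ N ⊆ Finset.Ioc N (2 * N)) →
      (∀ N, S₂ N ⊆ Finset.Ioc N (2 * N)) → ∀ z : ℕ → ℕ → ℤ, UD S₁ z → UD S₂ z →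
      ∃ E : Set ℕ, NullIn S₁ E ∧ NullIn S₂ E ∧
        ∀ (r n : ℕ) (b : ℤ) (g : Fin r → ℤ[X]) (h : ℤ[X]), Admissible n b g h →
          ForTwists z E (OnlyPersistent n b g h) ∧
          ((∀ δ : Fin r → ℚ, IsClass n b δ → ¬ Persistent n g h δ) →
            ForTwists z E (EmptySelmer n b g h)) ∧
          (n = 2 → ∀ α₁ α₂ : ℤ, (∀ β : AlgebraicClosure ℚ, aeval β h = 0 ↔ β = α₁ ∨ β = α₂) →
            ForTwists z E (HassePrinciple b g h))) ∧
    (∀ (F : ℕ → Finset ℝ) (a : ℕ → ℝ → ℝ) (c : ℕ → ℝ), (∀ l, Leading (F l) (a l) (c l)) →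
      Function.Injective c → UD (fun N => Finset.Ioc N (2 * N)) (floors F a) ∧
        UD (fun N => (Finset.Ioc N (2 * N)).filter Nat.Prime) (floors F a)) ∧
    (Admissible 2 1 exg exh ∧ (∀ δ, IsClass 2 1 δ → ¬ Persistent 2 exg exh δ) ∧
      ∀ (a : ℤ) (m : ℕ), m ≠ 0 → CurveHasPoint 2 m 1 a exg exh ℝ ∧
        ∀ (p : ℕ) [Fact p.Prime], CurveHasPoint 2 m 1 a exg exh ℚ_[p]) := by
  refine ⟨fun K _ n b g h hA => ?_, fun S₁ S₂ hS₁ hS₂ z h₁ h₂ => ?_,
    fun F a c hF hc => Pool.Agent.N924.TH.ud_fl hF hc,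
    TwistedCyclicCoverings.result.2.2⟩
  · have hcrit : LocalCriterion (Pool.Agent.N546.ZT.FDProp n b g h) :=
      Pool.Agent.N546.ZT.fd_crit n hA.n_pos b hA.b_ne g h hA.g_ne hA.h_ne hA.deg hA.coprime
        hA.coprime_h
    refine ⟨hcrit.mono fun _ => only_of, fun hno => hcrit.mono fun _ => empty_of hA hno, ?_⟩
    rintro rfl α₁ α₂ hz
    exact hcrit.mono fun _ => hasse_of hA hz
  · obtain ⟨E, h1, h2, h3⟩ := Pool.Agent.N546.ZT.thin_adm hS₁ hS₂ h₁ h₂
      Pool.Agent.N546.ZT.countable_data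
      (fun d => Admissible d.2.1 d.2.2.1 d.2.2.2.1 d.2.2.2.2)
      (fun d x => Pool.Agent.N546.ZT.FDProp d.2.1 d.2.2.1 d.2.2.2.1 d.2.2.2.2 x)
      (fun d hA => Pool.Agent.N546.ZT.fd_crit d.2.1 hA.n_pos d.2.2.1 hA.b_ne d.2.2.2.1 d.2.2.2.2
        hA.g_ne hA.h_ne hA.deg hA.coprime hA.coprime_h)
    refine ⟨E, h1, h2, fun r n b g h hA => ?_⟩
    have h4 : ForTwists z E (Pool.Agent.N546.ZT.FDProp n b g h) := h3 ⟨r, n, b, g, h⟩ hA
    refine ⟨h4.mono fun _ => only_of, fun hno => h4.mono fun _ => empty_of hA hno, ?_⟩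
    rintro rfl α₁ α₂ hz
    exact h4.mono fun _ => hasse_of hA hz

end Pool.Agent.Results.MP_d37f77_nt.ThinSequencesOfCoverings
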