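import Pool.Agent.Results.MP_d37f77_nt.TwistedCyclicCoverings
import Pool.Agent.N24.RW.All
import Pool.Agent.N97.RO.Tw
import Mathlib.Algebra.Polynomial.Cardinal

/-!
# Finite descent on twists of cyclic coverings along random walks on thin groups

Let `D : b y ^ n = ∏ k, G k (z, w)` be a curve over `ℚ` and `h` a polynomial with integral coefficients as in the
starting file `TwistedCyclicCoverings`, and consider for ALL integers `a` (not only the squarefree ones) the twists

  `C a : b y ^ n = ∏ k, G k (z, w)`, `a x ^ m = H (z, w)`    (`m ≥ 2`, `m ∣ deg h`)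

of the cyclic coverings of `D` which are ramified over the zeros of `h`, and the coverings `D δ` of `C a`, through which
every `n`-covering of `C a` factors. `Explained n b g h a`: for all `m` all the coverings `D δ` of `C a` with points
over all the fields `ℚ_p` are persistent.

Let `s_0, ..., s_m` be any finite family of matrices in `SL_ι(ℤ)`, `2 ≤ #ι`, which generates `SL_ι(ℤ/q)` for all `q` prime
to some `q₀`; by strong approximation every finite family which generates a Zariski dense subgroup of `SL_ι` is of this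
kind, e.g. generators of a thin subgroup (of infinite index). We prove that for almost every infinite word `w`, for ALL
vectors `v ≠ 0`, ALL linear forms `λ ≠ 0` and ALL curves `D` and polynomials `h`, all but a set of density zero of the
twists by the numbers `a_k = λ(s_(w (k-1)) ⋯ s_(w 0) v)` (e.g. an entry of the random product) are explained. The
exceptional set of parameter vectors is pronull: for all `M` its closure in the product of the `ℤ_p^ι`, `p ∤ M`, has Haar
measure zero.
-/

set_option autoImplicit false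

namespace Pool.Agent.Results.MP_d37f77_nt.TwistsAlongRandomWalks

open Polynomial MeasureTheory Filter Topology Pool.Agent.R925.FD
open Pool.Agent.N24.RW (Walk orb words ProNull)
open TwistedCyclicCoverings (Admissible LocallySoluble)

/-- all the coverings `D δ` of `C a` (for all `m`) which have points over all the fields `ℚ_p` are persistent -/
def Explained {K : Type} [Fintype K] (n : ℕ) (b : ℤ) (g : K → ℤ[X]) (h : ℤ[X]) (a : ℤ) : Prop :=
  ∀ m : ℕ, 2 ≤ m → m ∣ h.natDegree → ∀ δ : K → ℚ, IsClass n b δ → LocallySoluble n m a g h δ →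
    Persistent n g h δ

theorem result :
    (∀ (ι : Type) [Fintype ι] (lam : ι → ℤ), lam ≠ 0 → ∀ (K : Type) [Fintype K] (n : ℕ) (b : ℤ) (g : K → ℤ[X])
      (h : ℤ[X]), Admissible n b g h → ProNull {c : ι → ℤ | ¬ Explained n b g h (∑ i, lam i * c i)}) ∧
    (∀ (ι : Type) [Fintype ι] [DecidableEq ι], 2 ≤ Fintype.card ι → ∀ W : Walk ι, ∀ᵐ w ∂(words W.m),
      ∀ v : ι → ℤ, v ≠ 0 → ∀ lam : ι → ℤ, lam ≠ 0 → ∀ (r n : ℕ) (b : ℤ) (g : Fin r → ℤ[X]) (h : ℤ[X]),
        Admissible n b g h → Tendsto (fun N : ℕ =>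
          (({k : ℕ | k < N ∧ ¬ Explained n b g h (∑ i, lam i * orb W v w k i)}.ncard : ℕ) : ℝ) / (N : ℝ))
          atTop (𝓝 0)) ∧
    (∀ (K : Type) [Fintype K] (n : ℕ) (b : ℤ) (g : K → ℤ[X]) (h : ℤ[X]), Admissible n b g h →
      (∀ δ, IsClass n b δ → ¬ Persistent n g h δ) → ∀ a : ℤ, Explained n b g h a → ∀ m : ℕ, 2 ≤ m →
        m ∣ h.natDegree → (¬ ∃ δ : K → ℚ, IsClass n b δ ∧ LocallySoluble n m a g h δ) ∧
          ¬ CurveHasPoint n m b a g h ℚ) ∧
    (∀ (K : Type) [Fintype K] (b : ℤ) (g : K → ℤ[X]) (h : ℤ[X]) (α₁ α₂ : ℤ), Admissible 2 b g h →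
      (∀ β : AlgebraicClosure ℚ, aeval β h = 0 ↔ β = α₁ ∨ β = α₂) → ∀ a : ℤ, Explained 2 b g h a →
        ∀ m : ℕ, 2 ≤ m → m ∣ h.natDegree → ∀ δ : K → ℚ, IsClass 2 b δ → LocallySoluble 2 m a g h δ →
          CoveringHasPoint 2 m a g h δ ℚ) ∧
    (Admissible 2 1 exg exh ∧ (∀ δ, IsClass 2 1 δ → ¬ Persistent 2 exg exh δ) ∧
      ∀ (a : ℤ) (m : ℕ), m ≠ 0 → CurveHasPoint 2 m 1 a exg exh ℝ ∧
        ∀ (p : ℕ) [Fact p.Prime], CurveHasPoint 2 m 1 a exg exh ℚ_[p]) := by
  have hnull : ∀ (ι : Type) [Fintype ι] (lam : ι → ℤ), lam ≠ 0 → ∀ (K : Type) [Fintype K] (n : ℕ) (b : ℤ)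
      (g : K → ℤ[X]) (h : ℤ[X]), Admissible n b g h →
      ProNull {c : ι → ℤ | ¬ Explained n b g h (∑ i, lam i * c i)} := by
    intro ι _ lam hl K _ n b g h hA
    exact Pool.Agent.N97.RO.null_main Pool.Agent.N24.RW.crit Pool.Agent.N24.RW.clo n hA.n_pos b hA.b_ne g h hA.g_ne
      hA.h_ne hA.deg hA.coprime hA.coprime_h lam hl
  refine ⟨hnull, ?_, ?_, ?_, TwistedCyclicCoverings.result.2.2⟩
  · intro ι _ _ hι W
    have : Countable ℤ[X] := by
      rw [← Cardinal.mk_le_aleph0_iff]
      exact Polynomial.cardinalMk_le_max.trans (by simp)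
    rw [ae_all_iff]
    intro v
    rw [eventually_imp_distrib_left]
    intro hv
    rw [ae_all_iff]
    intro lam
    rw [eventually_imp_distrib_left]
    intro hl
    rw [ae_all_iff]
    intro r
    rw [ae_all_iff]
    intro n
    rw [ae_all_iff]
    intro b
    rw [ae_all_iff]
    intro g
    rw [ae_all_iff]
    intro h
    rw [eventually_imp_distrib_left]
    intro hA
    have key := Pool.Agent.N24.RW.main ι hι W v hv {c : ι → ℤ | ¬ Explained n b g h (∑ i, lam i * c i)}
      (hnull ι lam hl (Fin r) n b g h hA)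
    refine key.mono fun w hw => ?_
    have e : ∀ N : ℕ, {k : ℕ | k < N ∧ orb W v w k ∈ {c : ι → ℤ | ¬ Explained n b g h (∑ i, lam i * c i)}} =
        {k : ℕ | k < N ∧ ¬ Explained n b g h (∑ i, lam i * orb W v w k i)} := by
      intro N
      ext k
      rw [Set.mem_ofPred_eq, Set.mem_ofPred_eq, Set.mem_ofPred_eq]
    simp only [e] at hw
    exact hw
  · classical
    intro K _ n b g h hA hper a ha m hm hmh
    have h1 : ¬ ∃ δ : K → ℚ, IsClass n b δ ∧ LocallySoluble n m a g h δ := by
      rintro ⟨δ, h2, h3⟩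
      exact hper δ h2 (ha m hm hmh δ h2 h3)
    refine ⟨h1, fun hC => h1 ?_⟩
    obtain ⟨δ, h2, h3⟩ := exists_class n m hA.n_pos b a hA.b_ne g h hA.g_ne hA.coprime hC
    exact ⟨δ, h2, fun p _ => Pool.Agent.N97.RO.point_padic h3 p⟩
  · intro K _ b g h α₁ α₂ hA hz a ha m hm hmh δ hδ hloc
    exact Pool.Agent.N97.RO.pers_point b g h α₁ α₂ hA.h_ne hA.coprime_h hz δ hδ (ha m hm hmh δ hδ hloc) a m
      (by omega)

end Pool.Agent.Results.MP_d37f77_nt.TwistsAlongRandomWalks
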